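import Mathlib
import Pool.Agent.Helper133.Brouwer

/-!
# Polyhedra of codimension two do not separate spheres

`not_sep`: a compact subset `X₁ ∪ X₂` of a Euclidean space with closed `X₁`, `X₂`, none of which
contains the other, is not homeomorphic to the sphere `S^d` if the intersection `X₁ ∩ X₂` is
covered by finitely many images of `C¹` maps from a Euclidean space of dimension at most `d - 2`.
-/

set_option autoImplicit false

open Set Metric Topology Module
open scoped ContDiff

namespace Pool.Agent.W421.Sep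

/-- A map which is nonvanishing on a closed set `E` and close there to a map whose values on `E`
avoid a ray can be changed outside of `E` to a nonvanishing map. -/
theorem exists_nonvanishing {C V : Type*} [TopologicalSpace C] [NormalSpace C]
    [NormedAddCommGroup V] [NormedSpace ℝ V] (E : Set C) (hE : IsClosed E)
    (f g : C → V) (hf : Continuous f) (hg : Continuous g) (hfg : ∀ x ∈ E, ‖f x - g x‖ < ‖f x‖)
    (w : V) (hw : w ≠ 0) (hgw : ∀ x ∈ E, ∀ t : ℝ, 0 ≤ t → g x ≠ t • w) :
    ∃ F : C → V, Continuous F ∧ (∀ x, F x ≠ 0) ∧ ∀ x ∈ E, F x = f x := by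
  -- first step: a nonvanishing map which agrees with `g` on `E`
  have hray : IsClosed ((fun t : ℝ => t • w) '' Ici 0) :=
    (isClosedEmbedding_smul_left hw).isClosedMap _ isClosed_Ici
  have hZ : IsClosed (g ⁻¹' ((fun t : ℝ => t • w) '' Ici 0)) := hray.preimage hg
  have hd : Disjoint E (g ⁻¹' ((fun t : ℝ => t • w) '' Ici 0)) := by
    rw [Set.disjoint_left]
    rintro x hx ⟨t, ht, htx⟩
    exact hgw x hx t ht htx.symm
  obtain ⟨lam, hl0, hl1, hl⟩ := exists_continuous_zero_one_of_isClosed hE hZ hd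
  set G : C → V := fun x => (1 - lam x) • g x - lam x • w with hG
  have hGc : Continuous G := by
    rw [hG]
    exact ((continuous_const.sub lam.continuous).smul hg).sub (lam.continuous.smul continuous_const)
  have hG0 : ∀ x, G x ≠ 0 := by
    intro x hx
    rw [hG] at hx
    simp only at hx
    by_cases h1 : lam x = 1
    · rw [h1, sub_self, zero_smul, one_smul, zero_sub, neg_eq_zero] at hx
      exact hw hx
    · have h2 : 0 < 1 - lam x := by
        have := (hl x).2
        rcases lt_or_eq_of_le this with h | h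
        · linarith
        · exact absurd h h1
      have h3 : g x = (lam x / (1 - lam x)) • w := by
        rw [sub_eq_zero] at hx
        have := congrArg (fun v => (1 - lam x)⁻¹ • v) hx
        simp only [smul_smul, inv_mul_cancel₀ h2.ne', one_smul] at this
        rw [this, div_eq_inv_mul]
      have h4 : x ∈ g ⁻¹' ((fun t : ℝ => t • w) '' Ici 0) :=
        ⟨lam x / (1 - lam x), div_nonneg (hl x).1 h2.le, h3.symm⟩
      exact h1 (hl1 h4)
  have hGE : ∀ x ∈ E, G x = g x := by
    intro x hx
    have : lam x = 0 := hl0 hx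
    rw [hG]
    simp [this]
  -- second step
  have hZ' : IsClosed {x : C | ‖f x‖ ≤ ‖f x - G x‖} :=
    isClosed_le hf.norm (hf.sub hGc).norm
  have hd' : Disjoint E {x : C | ‖f x‖ ≤ ‖f x - G x‖} := by
    rw [Set.disjoint_left]
    intro x hx hx'
    have h1 := hfg x hx
    rw [mem_ofPred_eq, hGE x hx] at hx'
    linarith
  obtain ⟨mu, hm0, hm1, hm⟩ := exists_continuous_zero_one_of_isClosed hE hZ' hd'
  refine ⟨fun x => (1 - mu x) • f x + mu x • G x, ?_, ?_, ?_⟩
  · exact ((continuous_const.sub mu.continuous).smul hf).add (mu.continuous.smul hGc)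
  · intro x hx
    simp only at hx
    by_cases hxZ : x ∈ {x : C | ‖f x‖ ≤ ‖f x - G x‖}
    · have h1 : mu x = 1 := hm1 hxZ
      rw [h1, sub_self, zero_smul, one_smul, zero_add] at hx
      exact hG0 x hx
    · rw [mem_ofPred_eq, not_le] at hxZ
      have h1 : f x = mu x • (f x - G x) := by
        have h2 : f x - mu x • (f x - G x) = 0 := by
          rw [← hx]; module
        exact sub_eq_zero.1 h2
      have h2 : ‖f x‖ ≤ ‖f x - G x‖ := by
        calc ‖f x‖ = ‖mu x • (f x - G x)‖ := by rw [← h1]
          _ = mu x * ‖f x - G x‖ := by rw [norm_smul, Real.norm_eq_abs, abs_of_nonneg (hm x).1]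
          _ ≤ 1 * ‖f x - G x‖ := mul_le_mul_of_nonneg_right (hm x).2 (norm_nonneg _)
          _ = ‖f x - G x‖ := one_mul _
      linarith
  · intro x hx
    have : mu x = 0 := hm0 hx
    simp [this]

/-- A nonvanishing map on a compact set `K ∋ p` cannot agree with `y ↦ y - p` on the frontier. -/
theorem frontier_obstruction (d : ℕ) (K : Set (EuclideanSpace ℝ (Fin d))) (hK : IsCompact K)
    (p : EuclideanSpace ℝ (Fin d)) (hp : p ∈ K)
    (F : EuclideanSpace ℝ (Fin d) → EuclideanSpace ℝ (Fin d)) (hF : ContinuousOn F K)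
    (hF0 : ∀ y ∈ K, F y ≠ 0) (hFr : ∀ y ∈ frontier K, F y = y - p) : False := by
  classical
  set r : EuclideanSpace ℝ (Fin d) → EuclideanSpace ℝ (Fin d) :=
    K.piecewise F (fun y => y - p) with hr
  have hrc : Continuous r := by
    apply continuous_piecewise
    · exact hFr
    · rwa [hK.isClosed.closure_eq]
    · exact (continuous_id.sub continuous_const).continuousOn
  obtain ⟨R, hR⟩ := hK.isBounded.subset_closedBall p
  obtain ⟨x, hx⟩ := Pool.Agent.Helper133.Brouwer.exists_zero d (fun x => r (x + p))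
    (hrc.comp (continuous_id.add continuous_const)) (|R| + 1) (by positivity) (by
      intro x hx
      have h1 : x + p ∉ K := by
        intro h
        have := hR h
        rw [mem_closedBall, dist_eq_norm, add_sub_cancel_right] at this
        have := le_abs_self R
        linarith
      simp [hr, h1])
  by_cases h : x + p ∈ K
  · rw [hr, Set.piecewise_eq_of_mem _ _ _ h] at hx
    exact hF0 _ h hx
  · rw [hr, Set.piecewise_eq_of_notMem _ _ _ h, add_sub_cancel_right] at hx
    rw [hx, zero_add] at h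
    exact h hp

/-- A `C¹` map on a low-dimensional set misses a line. -/
theorem exists_missed (d m : ℕ) (hm : m + 1 < d) {N : ℕ} {J : Type*} [Finite J]
    (s : J → EuclideanSpace ℝ (Fin m) → EuclideanSpace ℝ (Fin N)) (hs : ∀ j, ContDiff ℝ 1 (s j))
    (g : EuclideanSpace ℝ (Fin N) → EuclideanSpace ℝ (Fin d)) (hg : ContDiff ℝ 1 g) :
    ∃ w : EuclideanSpace ℝ (Fin d), w ≠ 0 ∧ ∀ j u (t : ℝ), t • g (s j u) ≠ w := by
  set A : Set (EuclideanSpace ℝ (Fin d)) :=
    ⋃ j : J, range (fun x : EuclideanSpace ℝ (Fin m) × ℝ => x.2 • g (s j x.1)) with hA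
  have hdim : dimH A < finrank ℝ (EuclideanSpace ℝ (Fin d)) := by
    rw [hA, dimH_iUnion, finrank_euclideanSpace_fin]
    refine lt_of_le_of_lt (b := ((m + 1 : ℕ) : ENNReal)) ?_ (by exact_mod_cast hm)
    apply iSup_le
    intro j
    have h1 : ContDiff ℝ 1 (fun x : EuclideanSpace ℝ (Fin m) × ℝ => x.2 • g (s j x.1)) :=
      contDiff_snd.smul (hg.comp ((hs j).comp contDiff_fst))
    refine h1.dimH_range_le.trans ?_
    rw [Module.finrank_prod, finrank_euclideanSpace_fin, Module.finrank_self]
  have hdense : Dense Aᶜ := dense_compl_of_dimH_lt_finrank hdim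
  have hne : ({0}ᶜ : Set (EuclideanSpace ℝ (Fin d))).Nonempty := by
    have : 0 < d := by omega
    have : Nonempty (Fin d) := ⟨⟨0, this⟩⟩
    obtain ⟨x, hx⟩ := exists_ne (0 : EuclideanSpace ℝ (Fin d))
    exact ⟨x, hx⟩
  obtain ⟨w, hw1, hw2⟩ := hdense.exists_mem_open isOpen_compl_singleton hne
  refine ⟨w, hw2, ?_⟩
  intro j u t h
  apply hw1
  rw [hA, mem_iUnion]
  exact ⟨j, ⟨(u, t), h⟩⟩


/-- **Polyhedra of codimension two do not separate spheres.**  If the sphere `S^d` is homeomorphic
to the union of two compact subsets of a Euclidean space, whose intersection is covered by finitely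
many images of `C¹` maps defined on a Euclidean space of dimension `m ≤ d - 2`, then one of these
sets contains the other. -/
theorem not_sep {N d m : ℕ} (hm : m + 1 < d) {J : Type*} [Finite J]
    (X₁ X₂ : Set (EuclideanSpace ℝ (Fin N))) (h1 : IsCompact X₁) (h2 : IsCompact X₂)
    (s : J → EuclideanSpace ℝ (Fin m) → EuclideanSpace ℝ (Fin N)) (hs : ∀ j, ContDiff ℝ 1 (s j))
    (hX : X₁ ∩ X₂ ⊆ ⋃ j, range (s j))
    (h12 : (X₁ \ X₂).Nonempty) (h21 : (X₂ \ X₁).Nonempty)
    (h : ↥(X₁ ∪ X₂) ≃ₜ ↥(sphere (0 : EuclideanSpace ℝ (Fin (d + 1))) 1)) : False := by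
  classical
  obtain ⟨a, ha1, ha2⟩ := h12
  obtain ⟨b, hb2, hb1⟩ := h21
  set q := h ⟨b, Or.inr hb2⟩ with hq
  have hfact : Fact (finrank ℝ (EuclideanSpace ℝ (Fin (d + 1))) = d + 1) :=
    ⟨finrank_euclideanSpace_fin⟩
  set σ := stereographic' d q with hσ
  have hsrc : σ.source = {q}ᶜ := stereographic'_source q
  have hmem : ∀ x : ↥(X₁ ∪ X₂), (x : EuclideanSpace ℝ (Fin N)) ≠ b → h x ∈ σ.source := by
    intro x hx
    rw [hsrc, mem_compl_singleton_iff, hq]
    intro hh
    exact hx (congrArg Subtype.val (h.injective hh))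
  have hmem1 : ∀ x : ↥X₁, h ⟨x, Or.inl x.2⟩ ∈ σ.source := by
    intro x
    apply hmem
    rintro hh
    exact hb1 (hh ▸ x.2)
  set φ : ↥X₁ → EuclideanSpace ℝ (Fin d) := fun x => σ (h ⟨x, Or.inl x.2⟩) with hφ
  have hφc : Continuous φ := by
    rw [hφ]
    apply σ.continuousOn.comp_continuous
    · exact h.continuous.comp (continuous_subtype_val.subtype_mk _)
    · exact hmem1
  have hφi : Function.Injective φ := by
    intro x y hxy
    have := σ.injOn (hmem1 x) (hmem1 y) hxy
    have := congrArg Subtype.val (h.injective this)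
    exact Subtype.ext this
  have hcomp : CompactSpace ↥X₁ := isCompact_iff_compactSpace.1 h1
  set E : Set ↥X₁ := {x | (x : EuclideanSpace ℝ (Fin N)) ∈ X₂} with hE
  have hEc : IsClosed E := h2.isClosed.preimage continuous_subtype_val
  set p := φ ⟨a, ha1⟩ with hp
  set f : ↥X₁ → EuclideanSpace ℝ (Fin d) := fun x => φ x - p with hf
  have hfc : Continuous f := hφc.sub continuous_const
  have hf0 : ∀ x ∈ E, f x ≠ 0 := by
    intro x hx hx0
    have := hφi (sub_eq_zero.1 hx0)
    rw [this] at hx
    exact ha2 hx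
  obtain ⟨δ, hδ, hδf⟩ : ∃ δ : ℝ, 0 < δ ∧ ∀ x ∈ E, δ ≤ ‖f x‖ := by
    rcases E.eq_empty_or_nonempty with he | he
    · exact ⟨1, one_pos, by simp [he]⟩
    · obtain ⟨x0, hx0, hmin⟩ := hEc.isCompact.exists_isMinOn he hfc.norm.continuousOn
      exact ⟨‖f x0‖, norm_pos_iff.2 (hf0 x0 hx0), fun x hx => hmin hx⟩
  -- extension and smooth approximation
  obtain ⟨f', hf'⟩ := ContinuousMap.exists_restrict_eq h1.isClosed ⟨f, hfc⟩
  obtain ⟨g, hgC, hgapp, -⟩ := f'.continuous.exists_contDiff_approx 1
    (ε := fun _ => δ) continuous_const (fun _ => hδ)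
  have hff' : ∀ x : ↥X₁, f' x = f x := by
    intro x
    have := congrArg (fun u => u x) hf'
    exact this
  have hfg : ∀ x ∈ E, ‖f x - g x‖ < ‖f x‖ := by
    intro x hx
    have h3 := hgapp x
    rw [hff' x, dist_eq_norm, norm_sub_rev] at h3
    exact lt_of_lt_of_le h3 (hδf x hx)
  obtain ⟨w, hw0, hw⟩ := exists_missed d m hm s hs g hgC
  obtain ⟨F, hFc, hF0, hFE⟩ := exists_nonvanishing E hEc f (fun x => g x) hfc
    (hgC.continuous.comp continuous_subtype_val) hfg w hw0 (by
      intro x hx t ht hxt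
      have hx' : (x : EuclideanSpace ℝ (Fin N)) ∈ ⋃ j, range (s j) := hX ⟨x.2, hx⟩
      rw [mem_iUnion] at hx'
      obtain ⟨j, u, hu⟩ := hx'
      have ht0 : t ≠ 0 := by
        rintro rfl
        rw [zero_smul] at hxt
        have := hfg x hx
        rw [hxt, sub_zero] at this
        exact lt_irrefl _ this
      apply hw j u t⁻¹
      rw [hu, hxt, smul_smul, inv_mul_cancel₀ ht0, one_smul])
  -- transport to Euclidean space
  have hφe : IsClosedEmbedding φ := hφc.isClosedEmbedding hφi
  have hKc : IsCompact (range φ) := isCompact_range hφc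
  refine frontier_obstruction d (range φ) hKc p ⟨_, rfl⟩ (Function.extend φ F 0) ?_ ?_ ?_
  · rw [continuousOn_iff_continuous_domRestrict]
    have : (range φ).domRestrict (Function.extend φ F 0) =
        F ∘ hφe.isEmbedding.toHomeomorph.symm := by
      funext y
      obtain ⟨x, rfl⟩ := hφe.isEmbedding.toHomeomorph.surjective y
      rw [Function.comp_apply, Homeomorph.symm_apply_apply, Set.domRestrict_apply]
      exact hφi.extend_apply _ _ _
    rw [this]
    exact hFc.comp (Homeomorph.continuous _)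
  · rintro _ ⟨x, rfl⟩
    rw [hφi.extend_apply]
    exact hF0 x
  · intro y hy
    have hyK : y ∈ range φ := by
      have := hy.1
      rwa [hKc.isClosed.closure_eq] at this
    obtain ⟨x, rfl⟩ := hyK
    rw [hφi.extend_apply]
    by_cases hx : x ∈ E
    · exact hFE x hx
    · exfalso
      apply hy.2
      rw [mem_interior]
      refine ⟨σ '' (h '' {z | (z : EuclideanSpace ℝ (Fin N)) ∉ X₂}), ?_, ?_, ?_⟩
      · rintro _ ⟨_, ⟨z, hz, rfl⟩, rfl⟩
        have hz1 : (z : EuclideanSpace ℝ (Fin N)) ∈ X₁ := by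
          rcases z.2 with h' | h'
          · exact h'
          · exact absurd h' hz
        exact ⟨⟨z, hz1⟩, rfl⟩
      · apply σ.isOpen_image_of_subset_source
        · apply h.isOpenMap
          exact h2.isClosed.isOpen_compl.preimage continuous_subtype_val
        · rintro _ ⟨z, hz, rfl⟩
          apply hmem
          rintro hh
          exact hz (hh ▸ hb2)
      · exact ⟨_, ⟨⟨x, Or.inl x.2⟩, hx, rfl⟩, rfl⟩

end Pool.Agent.W421.Sep
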