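import Mathlib
import Pool.Agent.W421.Sep

/-!
# Two families of simplices sharing only faces of codimension two do not form a sphere
-/

set_option autoImplicit false

open Set Metric

namespace Pool.Agent.W421.SphereGeom

/-- The standard vertex of the simplex. -/
noncomputable abbrev vtx {n : ℕ} (v : Fin n) : EuclideanSpace ℝ (Fin n) :=
  EuclideanSpace.single v (1 : ℝ)

theorem conv_props {n : ℕ} {e : Finset (Fin n)} {x : EuclideanSpace ℝ (Fin n)}
    (hx : x ∈ convexHull ℝ ((fun v : Fin n => EuclideanSpace.single v (1 : ℝ)) ''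
      (↑e : Set (Fin n)))) :
    ∑ v, x v = 1 ∧ ∀ v, v ∉ e → x v = 0 := by
  have hconv : Convex ℝ {x : EuclideanSpace ℝ (Fin n) | ∑ v, x v = 1 ∧ ∀ v, v ∉ e → x v = 0} := by
    rintro x ⟨hx1, hx2⟩ y ⟨hy1, hy2⟩ a b ha hb hab
    refine ⟨?_, ?_⟩
    · simp only [PiLp.add_apply, PiLp.smul_apply, smul_eq_mul, Finset.sum_add_distrib,
        ← Finset.mul_sum, hx1, hy1, mul_one, hab]
    · intro v hv
      simp [hx2 v hv, hy2 v hv]
  refine (convexHull_min ?_ hconv) hx
  rintro _ ⟨v, hv, rfl⟩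
  refine ⟨?_, ?_⟩
  · simp [PiLp.single_apply]
  · intro u hu
    have : u ≠ v := by
      rintro rfl
      exact hu hv
    simp [this]

theorem exists_bary {n : ℕ} (e : Finset (Fin n)) (he : e.Nonempty) :
    ∃ x ∈ convexHull ℝ ((fun v : Fin n => EuclideanSpace.single v (1 : ℝ)) ''
      (↑e : Set (Fin n))), ∀ v ∈ e, x v ≠ 0 := by
  have hc : (0 : ℝ) < e.card := by exact_mod_cast Finset.card_pos.2 he
  refine ⟨∑ v ∈ e, (e.card : ℝ)⁻¹ • EuclideanSpace.single v (1 : ℝ), ?_, ?_⟩
  · apply (convex_convexHull ℝ _).sum_mem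
    · intro i _
      exact inv_nonneg.2 hc.le
    · rw [Finset.sum_const, nsmul_eq_mul, mul_inv_cancel₀ hc.ne']
    · intro i hi
      exact subset_convexHull ℝ _ ⟨i, hi, rfl⟩
  · intro v hv
    have : (∑ u ∈ e, (e.card : ℝ)⁻¹ • EuclideanSpace.single u (1 : ℝ) :
        EuclideanSpace ℝ (Fin n)) v = (e.card : ℝ)⁻¹ := by
      simp only [WithLp.ofLp_sum, WithLp.ofLp_smul, Finset.sum_apply, Pi.smul_apply, smul_eq_mul,
        PiLp.ofLp_single]
      rw [Finset.sum_eq_single v]
      · simp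
      · intro u _ huv
        simp [huv.symm]
      · exact fun h => absurd hv h
    rw [this]
    exact inv_ne_zero hc.ne'

/-- The plane through three vertices. -/
noncomputable def plane {n : ℕ} (a : Fin n × Fin n × Fin n) (u : EuclideanSpace ℝ (Fin 2)) :
    EuclideanSpace ℝ (Fin n) :=
  u 0 • vtx a.1 + u 1 • vtx a.2.1 + (1 - u 0 - u 1) • vtx a.2.2

theorem contDiff_plane {n : ℕ} (a : Fin n × Fin n × Fin n) : ContDiff ℝ 1 (plane a) := by
  have h0 : ContDiff ℝ 1 (fun u : EuclideanSpace ℝ (Fin 2) => u 0) := by fun_prop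
  have h1 : ContDiff ℝ 1 (fun u : EuclideanSpace ℝ (Fin 2) => u 1) := by fun_prop
  unfold plane
  exact ((h0.smul contDiff_const).add (h1.smul contDiff_const)).add
    (((contDiff_const.sub h0).sub h1).smul contDiff_const)

theorem mem_plane {n : ℕ} (hn : 3 ≤ n) {τ : Finset (Fin n)} (hτ : τ.card ≤ 3)
    {x : EuclideanSpace ℝ (Fin n)} (hx1 : ∑ v, x v = 1) (hx2 : ∀ v, v ∉ τ → x v = 0) :
    ∃ a u, plane a u = x := by
  classical
  obtain ⟨σ, hσ1, hσ2⟩ := Finset.exists_superset_card_eq hτ (by simpa using hn)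
  obtain ⟨a, b, c, hab, hac, hbc, rfl⟩ := Finset.card_eq_three.1 hσ2
  have hx2' : ∀ v, v ∉ ({a, b, c} : Finset (Fin n)) → x v = 0 := fun v hv =>
    hx2 v (fun h => hv (hσ1 h))
  have hsum : x a + x b + x c = 1 := by
    have h : ∑ v, x v = ∑ v ∈ ({a, b, c} : Finset (Fin n)), x v := by
      symm
      apply Finset.sum_subset (Finset.subset_univ _)
      intro v _ hv
      exact hx2' v hv
    rw [h, Finset.sum_insert (by simp [hab, hac]), Finset.sum_insert (by simp [hbc]),
      Finset.sum_singleton] at hx1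
    linarith
  refine ⟨(a, b, c), !₂[x a, x b], ?_⟩
  ext v
  have h3 : (1 : ℝ) - x a - x b = x c := by linarith
  simp only [plane, vtx, PiLp.add_apply, PiLp.smul_apply, smul_eq_mul]
  by_cases hva : v = a
  · subst hva
    simp [hab, hac]
  by_cases hvb : v = b
  · subst hvb
    simp [hab.symm, hbc]
  by_cases hvc : v = c
  · subst hvc
    simp [hac.symm, hbc.symm, h3]
  · rw [hx2' v (by simp [hva, hvb, hvc])]
    simp [hva, hvb, hvc]

/-- The realisation of a family of simplices. -/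
def real {n : ℕ} (F : Finset (Finset (Fin n))) : Set (EuclideanSpace ℝ (Fin n)) :=
  ⋃ e ∈ F, convexHull ℝ ((fun v : Fin n => EuclideanSpace.single v (1 : ℝ)) '' (↑e : Set (Fin n)))

theorem isCompact_real {n : ℕ} (F : Finset (Finset (Fin n))) : IsCompact (real F) := by
  unfold real
  apply F.isCompact_biUnion
  intro e _
  exact ((e.finite_toSet.image _).isCompact_convexHull (𝕜 := ℝ))

/-- Two nonempty families of five-sets such that two sets of different families have at most three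
common points do not form a `4`-sphere. -/
theorem no_sphere {n : ℕ} (F₁ F₂ : Finset (Finset (Fin n))) (h₁ : ∀ e ∈ F₁, e.card = 5)
    (h₂ : ∀ e ∈ F₂, e.card = 5) (hne₁ : F₁.Nonempty) (hne₂ : F₂.Nonempty)
    (h : ∀ e ∈ F₁, ∀ f ∈ F₂, (e ∩ f).card ≤ 3)
    (φ : ↥(real F₁ ∪ real F₂) ≃ₜ ↥(sphere (0 : EuclideanSpace ℝ (Fin 5)) 1)) : False := by
  classical
  have hn : 3 ≤ n := by
    obtain ⟨e, he⟩ := hne₁
    have h1 := h₁ e he
    have h2 := Finset.card_le_univ e
    rw [Fintype.card_fin] at h2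
    omega
  have key : ∀ (G₁ G₂ : Finset (Finset (Fin n))), (∀ e ∈ G₁, e.card = 5) → G₁.Nonempty →
      (∀ e ∈ G₁, ∀ f ∈ G₂, (e ∩ f).card ≤ 3) → (real G₁ \ real G₂).Nonempty := by
    intro G₁ G₂ hc hne hG
    obtain ⟨e, he⟩ := hne
    have hecard := hc e he
    obtain ⟨x, hx, hx0⟩ := exists_bary e (by rw [← Finset.card_pos]; omega)
    refine ⟨x, ?_, ?_⟩
    · unfold real
      rw [mem_iUnion₂]
      exact ⟨e, he, hx⟩
    · intro hx2
      unfold real at hx2
      rw [mem_iUnion₂] at hx2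
      obtain ⟨f, hf, hxf⟩ := hx2
      have h3 := (conv_props hxf).2
      have h4 : e ⊆ f := by
        intro v hv
        by_contra hvf
        exact hx0 v hv (h3 v hvf)
      have h5 := hG e he f hf
      rw [Finset.inter_eq_left.2 h4] at h5
      omega
  refine Pool.Agent.W421.Sep.not_sep (d := 4) (m := 2) (by norm_num) (real F₁) (real F₂)
    (isCompact_real F₁) (isCompact_real F₂) (J := Fin n × Fin n × Fin n) plane contDiff_plane ?_
    (key F₁ F₂ h₁ hne₁ h) (key F₂ F₁ h₂ hne₂ ?_) φ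
  · rintro x ⟨hx1, hx2⟩
    unfold real at hx1 hx2
    rw [mem_iUnion₂] at hx1 hx2
    obtain ⟨e, he, hxe⟩ := hx1
    obtain ⟨f, hf, hxf⟩ := hx2
    obtain ⟨a, u, hau⟩ := mem_plane hn (h e he f hf) (conv_props hxe).1 (by
      intro v hv
      rw [Finset.mem_inter, not_and_or] at hv
      rcases hv with hv | hv
      · exact (conv_props hxe).2 v hv
      · exact (conv_props hxf).2 v hv)
    rw [mem_iUnion]
    exact ⟨a, u, hau⟩
  · intro e he f hf
    rw [Finset.inter_comm]
    exact h f hf e he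

end Pool.Agent.W421.SphereGeom
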