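import Mathlib
import Pool.Agent.W87.Tight

/-!
# `5`-graphs of codegree `(2/9 - o(1)) n` with small tight components

The construction of `Pool.Agent.W87.Tight` for an arbitrary number `n` of vertices.
-/

set_option autoImplicit false

namespace Pool.Agent.W421.TightN

open Finset Pool.Agent.W87.Tight

variable {n : ℕ}

/-- The part of a vertex. -/
def partN (v : Fin n) : ℕ := v.val % 9

/-- The code of a set of vertices: the sum of the weights of the parts of its elements. -/
def codeN (S : Finset (Fin n)) : ℕ := ∑ v ∈ S, w (partN v)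

/-- The colour `a` is the common colour of all four-subsets of `e`, and `e` misses the part `a`. -/
def HasColor (e : Finset (Fin n)) (a : ℕ) : Prop :=
  a < 9 ∧ ∀ v ∈ e, col (codeN (e.erase v)) = a ∧ partN v ≠ a

/-- The set of edges of the counterexample. -/
noncomputable def HN (n : ℕ) : Finset (Finset (Fin n)) := by
  classical
  exact (univ.powersetCard 5).filter fun e => ∃ a : ℕ, HasColor e a

theorem mem_HN {e : Finset (Fin n)} : e ∈ HN n ↔ e.card = 5 ∧ ∃ a : ℕ, HasColor e a := by
  classical
  simp [HN, mem_powersetCard]

theorem partN_lt (v : Fin n) : partN v < 9 := Nat.mod_lt _ (by norm_num)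

/-- Adding a vertex of a good part to a four-set gives an edge. -/
theorem insert_memN {x y z t u : Fin n} (hxy : x ≠ y) (hxz : x ≠ z) (hxt : x ≠ t) (hyz : y ≠ z)
    (hyt : y ≠ t) (hzt : z ≠ t) (hu : u ∉ ({x, y, z, t} : Finset (Fin n)))
    (h : mono (partN x) (partN y) (partN z) (partN t) (partN u) = true) :
    insert u {x, y, z, t} ∈ HN n := by
  classical
  simp only [mem_insert, mem_singleton, not_or] at hu
  obtain ⟨hux, huy, huz, hut⟩ := hu
  obtain ⟨⟨h1, h2, h3, h4⟩, h5, h6, h7, h8, h9, h10⟩ := mono_spec h
  rw [mem_HN]
  refine ⟨?_, col (w (partN x) + w (partN y) + w (partN z) + w (partN t)), h10, ?_⟩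
  · rw [card_insert_of_notMem (by simp [hux, huy, huz, hut]),
      card_insert_of_notMem (by simp [hxy, hxz, hxt]),
      card_insert_of_notMem (by simp [hyz, hyt]),
      card_insert_of_notMem (by simp [hzt]), card_singleton]
  · intro v hv
    simp only [mem_insert, mem_singleton] at hv
    rcases hv with rfl | rfl | rfl | rfl | rfl
    · refine ⟨?_, h9⟩
      rw [erase_insert (by simp [hux, huy, huz, hut])]
      rw [codeN, sum_insert (by simp [hxy, hxz, hxt]), sum_insert (by simp [hyz, hyt]),
        sum_insert (by simp [hzt]), sum_singleton]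
      congr 1; ring
    · refine ⟨?_, h5⟩
      have : (insert u ({v, y, z, t} : Finset (Fin n))).erase v = {u, y, z, t} := by
        ext a; simp only [mem_erase, mem_insert, mem_singleton]
        constructor
        · rintro ⟨h, h' | h' | h' | h' | h'⟩ <;> simp_all
        · rintro (h' | h' | h' | h') <;> subst h' <;> simp_all <;> tauto
      rw [this, codeN, sum_insert (by simp [huy, huz, hut]), sum_insert (by simp [hyz, hyt]),
        sum_insert (by simp [hzt]), sum_singleton, ← h1]
      congr 1; ring
    · refine ⟨?_, h6⟩
      have : (insert u ({x, v, z, t} : Finset (Fin n))).erase v = {u, x, z, t} := by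
        ext a; simp only [mem_erase, mem_insert, mem_singleton]
        constructor
        · rintro ⟨h, h' | h' | h' | h' | h'⟩ <;> simp_all
        · rintro (h' | h' | h' | h') <;> subst h' <;> simp_all <;> tauto
      rw [this, codeN, sum_insert (by simp [hux, huz, hut]), sum_insert (by simp [hxz, hxt]),
        sum_insert (by simp [hzt]), sum_singleton, ← h2]
      congr 1; ring
    · refine ⟨?_, h7⟩
      have : (insert u ({x, y, v, t} : Finset (Fin n))).erase v = {u, x, y, t} := by
        ext a; simp only [mem_erase, mem_insert, mem_singleton]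
        constructor
        · rintro ⟨h, h' | h' | h' | h' | h'⟩ <;> simp_all
        · rintro (h' | h' | h' | h') <;> subst h' <;> simp_all <;> tauto
      rw [this, codeN, sum_insert (by simp [hux, huy, hut]), sum_insert (by simp [hxy, hxt]),
        sum_insert (by simp [hyt]), sum_singleton, ← h3]
      congr 1; ring
    · refine ⟨?_, h8⟩
      have : (insert u ({x, y, z, v} : Finset (Fin n))).erase v = {u, x, y, z} := by
        ext a; simp only [mem_erase, mem_insert, mem_singleton]
        constructor
        · rintro ⟨h, h' | h' | h' | h' | h'⟩ <;> simp_all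
        · rintro (h' | h' | h' | h') <;> subst h' <;> simp_all <;> tauto
      rw [this, codeN, sum_insert (by simp [hux, huy, huz]), sum_insert (by simp [hxy, hxz]),
        sum_insert (by simp [hyz]), sum_singleton, ← h4]
      congr 1; ring

/-- Each part has at least `n / 9` elements. -/
theorem card_partN (P : ℕ) (hP : P < 9) :
    n / 9 ≤ (univ.filter fun u : Fin n => partN u = P).card := by
  classical
  have h : ∀ i : Fin (n / 9), 9 * i.val + P < n := by
    intro i
    have := i.2
    omega
  calc n / 9 = (univ : Finset (Fin (n / 9))).card := by simp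
    _ = (univ.image fun i : Fin (n / 9) => (⟨9 * i.val + P, h i⟩ : Fin n)).card := by
        rw [card_image_of_injective]
        intro i j hij
        simp only [Fin.mk.injEq] at hij
        ext; omega
    _ ≤ _ := by
        apply card_le_card
        intro u hu
        rw [mem_image] at hu
        obtain ⟨i, -, rfl⟩ := hu
        rw [mem_filter]
        refine ⟨mem_univ _, ?_⟩
        simp only [partN]
        omega

/-- All codegrees are at least `2 ⌊n / 9⌋ - 4`. -/
theorem codegN (S : Finset (Fin n)) (hS : S.card = 4) :
    2 * (n / 9) ≤ ((HN n).filter fun e => S ⊆ e).card + 4 := by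
  classical
  obtain ⟨x, y, z, t, hxy, hxz, hxt, hyz, hyt, hzt, rfl⟩ := card_eq_four.1 hS
  obtain ⟨P, hP, Q, hQ, h1, h2⟩ := good4_spec (partN_lt x) (partN_lt y) (partN_lt z) (partN_lt t)
  set U := (univ.filter fun u : Fin n => partN u = P) ∪ (univ.filter fun u : Fin n => partN u = Q)
    with hU
  have hcard : 2 * (n / 9) ≤ U.card := by
    rw [hU, card_union_of_disjoint]
    · have h3 := card_partN (n := n) P hP
      have h4 := card_partN (n := n) Q (hQ.trans hP)
      omega
    · rw [disjoint_left]
      intro u hu hv
      rw [mem_filter] at hu hv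
      have := hu.2.symm.trans hv.2
      omega
  have h3 : 2 * (n / 9) ≤ (U \ {x, y, z, t}).card + 4 := by
    have := le_card_sdiff ({x, y, z, t} : Finset (Fin n)) U
    omega
  refine h3.trans (Nat.add_le_add_right ?_ 4)
  refine card_le_card_of_injOn (fun u => insert u {x, y, z, t}) ?_ ?_
  · intro u hu
    rw [mem_coe, mem_sdiff, hU, mem_union, mem_filter, mem_filter] at hu
    obtain ⟨hu1, hu2⟩ := hu
    rw [mem_coe, mem_filter]
    refine ⟨?_, subset_insert _ _⟩
    apply insert_memN hxy hxz hxt hyz hyt hzt hu2
    rcases hu1 with hu1 | hu1 <;> rw [hu1.2] <;> assumption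
  · intro u hu v hv huv
    rw [mem_coe, mem_sdiff] at hu hv
    have : u ∈ insert v ({x, y, z, t} : Finset (Fin n)) := by
      have h := mem_insert_self u ({x, y, z, t} : Finset (Fin n))
      rw [show insert u ({x, y, z, t} : Finset (Fin n)) = insert v {x, y, z, t} from huv] at h
      exact h
    rcases mem_insert.1 this with h | h
    · exact h
    · exact absurd h hu.2

/-- The colour of an edge is unique. -/
theorem hasColor_unique {e : Finset (Fin n)} (he : e.Nonempty) {a b : ℕ} (ha : HasColor e a)
    (hb : HasColor e b) : a = b := by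
  obtain ⟨v, hv⟩ := he
  rw [← (ha.2 v hv).1, ← (hb.2 v hv).1]

/-- Two edges with four common vertices have the same colour. -/
theorem color_eqN {e f : Finset (Fin n)} (he : e ∈ HN n) (hf : f ∈ HN n) (h : 4 ≤ (e ∩ f).card)
    {a : ℕ} (ha : HasColor e a) : HasColor f a := by
  classical
  by_cases hef : e = f
  · subst hef; exact ha
  obtain ⟨he5, -⟩ := mem_HN.1 he
  obtain ⟨hf5, b, hb⟩ := mem_HN.1 hf
  have h1 : (e ∩ f).card ≠ 5 := by
    intro h5
    have h6 : e ∩ f = e := eq_of_subset_of_card_le inter_subset_left (by omega)
    have h7 : e ∩ f = f := eq_of_subset_of_card_le inter_subset_right (by omega)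
    exact hef (h6.symm.trans h7)
  have h2 : (e ∩ f).card = 4 := by
    have := card_le_card (inter_subset_left : e ∩ f ⊆ e)
    omega
  have h3 : (e \ f).card = 1 := by
    have := card_sdiff_add_card_inter e f
    omega
  have h4 : (f \ e).card = 1 := by
    have := card_sdiff_add_card_inter f e
    rw [inter_comm] at this
    omega
  obtain ⟨x, hx⟩ := card_eq_one.1 h3
  obtain ⟨y, hy⟩ := card_eq_one.1 h4
  have hxe : x ∈ e := by
    have : x ∈ e \ f := by rw [hx]; exact mem_singleton_self x
    exact (mem_sdiff.1 this).1
  have hyf : y ∈ f := by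
    have : y ∈ f \ e := by rw [hy]; exact mem_singleton_self y
    exact (mem_sdiff.1 this).1
  have h5 : e.erase x = e ∩ f := by
    rw [← sdiff_singleton_eq_erase, ← hx, sdiff_sdiff_right_self, inf_eq_inter]
  have h6 : f.erase y = e ∩ f := by
    rw [← sdiff_singleton_eq_erase, ← hy, sdiff_sdiff_right_self, inf_eq_inter, inter_comm]
  have h7 : a = b := by
    rw [← (ha.2 x hxe).1, ← (hb.2 y hyf).1, h5, h6]
  subst h7
  exact hb

end Pool.Agent.W421.TightN
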